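import Pool.Agent.Y743.CC.Stm
import Pool.Agent.Helper256.KM.Mertens

/-! Project CC (helper743): SD, the sum that comes from the diagonal. -/

set_option autoImplicit false

namespace Pool.Agent.Y950.CC.SD

open Pool.Agent.Y743.AF (Prm)

lemma mem_Prm' {X p : ℕ} : p ∈ Prm X ↔ p.Prime ∧ p ≤ X := by
  unfold Prm
  rw [Finset.mem_filter, Finset.mem_Icc]
  constructor
  · rintro ⟨⟨_, h2⟩, h3⟩; exact ⟨h3, h2⟩
  · rintro ⟨h1, h2⟩; exact ⟨⟨h1.one_le, h2⟩, h1⟩

/-- Mertens' upper bound with a real parameter. -/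
lemma mert : ∃ C : ℝ, 0 ≤ C ∧ ∀ X : ℕ, ∀ y : ℝ, 0 ≤ y →
    ∑ p ∈ (Prm X).filter (fun p : ℕ => Real.log p ≤ y), Real.log p / p ≤ y + C := by
  obtain ⟨C, hC⟩ := Pool.Agent.Helper256.KM.mertens_log
  refine ⟨max C 0, le_max_right _ _, fun X y hy => ?_⟩
  set N : ℕ := ⌊Real.exp y⌋₊ with hN
  have h1 : 1 ≤ N := by
    rw [hN]
    apply Nat.le_floor
    rw [Nat.cast_one]
    exact Real.one_le_exp hy
  have hsub : (Prm X).filter (fun p : ℕ => Real.log p ≤ y) ⊆
      (Finset.Icc 1 N).filter Nat.Prime := by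
    intro p hp
    rw [Finset.mem_filter, mem_Prm'] at hp
    rw [Finset.mem_filter, Finset.mem_Icc]
    refine ⟨⟨hp.1.1.one_le, ?_⟩, hp.1.1⟩
    apply Nat.le_floor
    have hp0 : (0 : ℝ) < p := by exact_mod_cast hp.1.1.pos
    rw [← Real.exp_log hp0]
    exact Real.exp_le_exp.2 hp.2
  have h2 : ∑ p ∈ (Prm X).filter (fun p : ℕ => Real.log p ≤ y), Real.log p / p ≤
      ∑ p ∈ (Finset.Icc 1 N).filter Nat.Prime, Real.log p / p := by
    refine Finset.sum_le_sum_of_subset_of_nonneg hsub fun p _ _ => ?_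
    exact div_nonneg (Real.log_natCast_nonneg p) (Nat.cast_nonneg p)
  have h3 := (abs_le.1 (hC N h1)).2
  have h4 : Real.log N ≤ y := by
    have h5 : (N : ℝ) ≤ Real.exp y := Nat.floor_le (Real.exp_pos y).le
    have h6 : (0 : ℝ) < N := by exact_mod_cast h1
    calc Real.log N ≤ Real.log (Real.exp y) := Real.log_le_log h6 h5
      _ = y := Real.log_exp y
  have h7 := le_max_left C 0
  linarith

/-- the weight of one prime -/
lemma wt (u : ℝ) (hu : 0 < u) (K : ℕ) (hK : u ≤ 2 ^ K) :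
    Real.sin (u / 2) ^ 2 ≤ 4 * u ^ 2 *
      ∑ k ∈ Finset.range (K + 1), (1 / 4 : ℝ) ^ k * (if u ≤ 2 ^ k then 1 else 0) := by
  classical
  have hex : ∃ k : ℕ, u ≤ 2 ^ k := ⟨K, hK⟩
  have hk1 : u ≤ 2 ^ (Nat.find hex) := Nat.find_spec hex
  have hk2 : Nat.find hex ≤ K := Nat.find_min' hex hK
  have hmin : ∀ m < Nat.find hex, ¬ u ≤ 2 ^ m := fun m hm => Nat.find_min hex hm
  generalize Nat.find hex = k at hk1 hk2 hmin
  have hsingle : (1 / 4 : ℝ) ^ k * (if u ≤ 2 ^ k then 1 else 0) ≤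
      ∑ k ∈ Finset.range (K + 1), (1 / 4 : ℝ) ^ k * (if u ≤ 2 ^ k then 1 else 0) := by
    refine Finset.single_le_sum (f := fun k => (1 / 4 : ℝ) ^ k * (if u ≤ 2 ^ k then 1 else 0))
      (fun i _ => ?_) (Finset.mem_range.2 (Nat.lt_succ_of_le hk2))
    refine mul_nonneg (by positivity) ?_
    split_ifs <;> norm_num
  rw [if_pos hk1, mul_one] at hsingle
  have hmain : Real.sin (u / 2) ^ 2 ≤ 4 * u ^ 2 * (1 / 4 : ℝ) ^ k := by
    rcases Nat.eq_zero_or_pos k with hk | hk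
    · subst hk
      rw [pow_zero, mul_one]
      have h1 : Real.sin (u / 2) ^ 2 ≤ (u / 2) ^ 2 := by
        rw [← sq_abs, ← sq_abs (u / 2)]
        exact pow_le_pow_left₀ (abs_nonneg _) Real.abs_sin_le_abs 2
      have h2 : 0 ≤ u ^ 2 := sq_nonneg u
      nlinarith
    · obtain ⟨m, rfl⟩ : ∃ m, k = m + 1 := ⟨k - 1, by omega⟩
      have h1 := hmin m (Nat.lt_succ_self m)
      rw [not_le] at h1
      have h2 : Real.sin (u / 2) ^ 2 ≤ 1 := Real.sin_sq_le_one _
      have h3 : ((2 : ℝ) ^ m) ^ 2 ≤ u ^ 2 := pow_le_pow_left₀ (by positivity) h1.le 2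
      have h4 : ((2 : ℝ) ^ m) ^ 2 = 4 ^ m := by
        rw [← pow_mul, mul_comm, pow_mul]; norm_num
      have h5 : (1 / 4 : ℝ) ^ (m + 1) * 4 = (1 / 4 : ℝ) ^ m := by rw [pow_succ]; ring
      have h6 : (1 / 4 : ℝ) ^ m * 4 ^ m = 1 := by rw [← mul_pow]; norm_num
      have h7 : (0 : ℝ) < (1 / 4 : ℝ) ^ m := by positivity
      have h8 : 4 * u ^ 2 * (1 / 4 : ℝ) ^ (m + 1) = u ^ 2 * (1 / 4 : ℝ) ^ m := by
        rw [← h5]; ring
      rw [h8]
      calc Real.sin (u / 2) ^ 2 ≤ 1 := h2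
        _ = (4 : ℝ) ^ m * (1 / 4 : ℝ) ^ m := by rw [mul_comm]; exact h6.symm
        _ ≤ u ^ 2 * (1 / 4 : ℝ) ^ m := by
          rw [← h4]
          exact mul_le_mul_of_nonneg_right h3 h7.le
  exact hmain.trans (mul_le_mul_of_nonneg_left hsingle (by positivity))

lemma geo (r : ℝ) (h0 : 0 ≤ r) (h1 : r ≤ 1 / 2) (K : ℕ) :
    ∑ k ∈ Finset.range (K + 1), r ^ k ≤ 2 := by
  have h2 : ∀ n : ℕ, ∑ k ∈ Finset.range n, r ^ k ≤ 2 := by
    intro n
    induction n with
    | zero => simp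
    | succ n ih =>
      rw [Finset.sum_range_succ']
      simp only [pow_succ, pow_zero]
      rw [← Finset.sum_mul]
      have h3 : (∑ k ∈ Finset.range n, r ^ k) * r ≤ 2 * (1 / 2) :=
        mul_le_mul ih h1 h0 (by norm_num)
      linarith
  exact h2 _

theorem sd : Pool.Agent.Y743.CC.S_SD := by
  obtain ⟨C, hC0, hC⟩ := mert
  refine ⟨8 * (1 + C), by positivity, fun h hh hh1 X => ?_⟩
  -- choose K
  obtain ⟨K, hK⟩ : ∃ K : ℕ, h * Real.log X ≤ 2 ^ K := by
    obtain ⟨n, hn⟩ := pow_unbounded_of_one_lt (h * Real.log X) (one_lt_two : (1 : ℝ) < 2)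
    exact ⟨n, hn.le⟩
  have h1 : ∀ p ∈ Prm X, Real.sin (h / 2 * Real.log p) ^ 2 / p / Real.log p ≤
      ∑ k ∈ Finset.range (K + 1), 4 * h ^ 2 * (1 / 4 : ℝ) ^ k *
        (if Real.log p ≤ 2 ^ k / h then Real.log p / p else 0) := by
    intro p hp
    rw [mem_Prm'] at hp
    have hp0 : (0 : ℝ) < p := by exact_mod_cast hp.1.pos
    have hl : 0 < Real.log p := Real.log_pos (by exact_mod_cast hp.1.one_lt)
    have hle : Real.log p ≤ Real.log X :=
      Real.log_le_log hp0 (by exact_mod_cast hp.2)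
    have hu : 0 < h * Real.log p := mul_pos hh hl
    have h2 := wt (h * Real.log p) hu K ((mul_le_mul_of_nonneg_left hle hh.le).trans hK)
    have e1 : h * Real.log p / 2 = h / 2 * Real.log p := by ring
    rw [e1] at h2
    have h3 : Real.sin (h / 2 * Real.log p) ^ 2 / p / Real.log p ≤
        (4 * (h * Real.log p) ^ 2 * ∑ k ∈ Finset.range (K + 1), (1 / 4 : ℝ) ^ k *
          (if h * Real.log p ≤ 2 ^ k then 1 else 0)) / p / Real.log p := by
      gcongr
    refine h3.trans (le_of_eq ?_)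
    rw [Finset.mul_sum, Finset.sum_div, Finset.sum_div]
    refine Finset.sum_congr rfl fun k _ => ?_
    by_cases hc : Real.log p ≤ 2 ^ k / h
    · have hc' : h * Real.log p ≤ 2 ^ k := by
        rw [le_div_iff₀ hh] at hc
        linarith
      rw [if_pos hc, if_pos hc']
      field_simp
    · have hc' : ¬ h * Real.log p ≤ 2 ^ k := by
        intro h'
        apply hc
        rw [le_div_iff₀ hh]
        linarith
      rw [if_neg hc, if_neg hc']
      simp
  calc ∑ p ∈ Prm X, Real.sin (h / 2 * Real.log p) ^ 2 / p / Real.log p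
      ≤ ∑ p ∈ Prm X, ∑ k ∈ Finset.range (K + 1), 4 * h ^ 2 * (1 / 4 : ℝ) ^ k *
        (if Real.log p ≤ 2 ^ k / h then Real.log p / p else 0) := Finset.sum_le_sum h1
    _ = ∑ k ∈ Finset.range (K + 1), 4 * h ^ 2 * (1 / 4 : ℝ) ^ k *
        ∑ p ∈ (Prm X).filter (fun p : ℕ => Real.log p ≤ 2 ^ k / h), Real.log p / p := by
      rw [Finset.sum_comm]
      refine Finset.sum_congr rfl fun k _ => ?_
      rw [← Finset.mul_sum, Finset.sum_filter]
    _ ≤ ∑ k ∈ Finset.range (K + 1), 4 * h ^ 2 * (1 / 4 : ℝ) ^ k * (2 ^ k / h + C) := by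
      refine Finset.sum_le_sum fun k _ => ?_
      exact mul_le_mul_of_nonneg_left (hC X _ (by positivity)) (by positivity)
    _ = 4 * h * ∑ k ∈ Finset.range (K + 1), (1 / 2 : ℝ) ^ k +
        4 * h ^ 2 * C * ∑ k ∈ Finset.range (K + 1), (1 / 4 : ℝ) ^ k := by
      rw [Finset.mul_sum, Finset.mul_sum, ← Finset.sum_add_distrib]
      refine Finset.sum_congr rfl fun k _ => ?_
      have e2 : (1 / 4 : ℝ) ^ k * 2 ^ k = (1 / 2 : ℝ) ^ k := by
        rw [← mul_pow]; norm_num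
      rw [← e2]
      field_simp
    _ ≤ 4 * h * 2 + 4 * h ^ 2 * C * 2 := by
      have g1 := geo (1 / 2) (by norm_num) le_rfl K
      have g2 := geo (1 / 4) (by norm_num) (by norm_num) K
      gcongr
    _ ≤ 8 * (1 + C) * h := by
      have h5 : h ^ 2 ≤ h := by nlinarith
      have h6 : h ^ 2 * C ≤ h * C := mul_le_mul_of_nonneg_right h5 hC0
      linarith

end Pool.Agent.Y950.CC.SD
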